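import Pool.Agent.Helper17.RZ.St3

/-!
Project RZ, module C5: splitting off the lowest degree of a complex of bundles.
-/

set_option autoImplicit false

namespace Pool.Agent.Helper94.RZ

open Pool.Agent.Helper17.RZ

universe u

noncomputable section

variable {k : Type u} [Field k] {K : Type u} [Field K] [Algebra k K] {Z : ProjVar k K}

/-- the trace of a lattice on a subspace -/
def subLat {V : Type u} [AddCommGroup V] [Module K V] (B : Subalgebra k K) (L : Submodule B V)
    (W : Submodule K V) : Submodule B W where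
  carrier := {w | (w : V) ∈ L}
  add_mem' := fun ha hb => L.add_mem ha hb
  zero_mem' := L.zero_mem
  smul_mem' := fun c _ hx => L.smul_mem c hx

/-- the projection of the lattice -/
def toSub {V : Type u} [AddCommGroup V] [Module K V] (B : Subalgebra k K) (L : Submodule B V)
    (W : Submodule K V) (e : V →ₗ[K] V) (he1 : ∀ v, e v ∈ W) (he3 : ∀ v, v ∈ L → e v ∈ L) :
    L →ₗ[B] subLat B L W where
  toFun v := ⟨⟨e v, he1 v⟩, he3 v v.2⟩
  map_add' v w := by
    apply Subtype.ext
    apply Subtype.ext
    exact map_add e (v : V) (w : V)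
  map_smul' c v := by
    apply Subtype.ext
    apply Subtype.ext
    exact e.map_smul (c : K) (v : V)

/-- the inclusion of the lattice -/
def ofSub {V : Type u} [AddCommGroup V] [Module K V] (B : Subalgebra k K) (L : Submodule B V)
    (W : Submodule K V) : subLat B L W →ₗ[B] L where
  toFun w := ⟨w.1.1, w.2⟩
  map_add' _ _ := rfl
  map_smul' _ _ := rfl

theorem toSub_ofSub {V : Type u} [AddCommGroup V] [Module K V] (B : Subalgebra k K)
    (L : Submodule B V) (W : Submodule K V) (e : V →ₗ[K] V) (he1 : ∀ v, e v ∈ W)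
    (he2 : ∀ w ∈ W, e w = w) (he3 : ∀ v, v ∈ L → e v ∈ L) (w : subLat B L W) :
    toSub B L W e he1 he3 (ofSub B L W w) = w := by
  apply Subtype.ext
  apply Subtype.ext
  exact he2 _ w.1.2

/-- the direct summand of a complex given by a subspace `W`, the image of the idempotent `e`,
with the differential `d'` -/
def subC (X : Cplx Z) (W : Submodule K X.V) (e d' : X.V →ₗ[K] X.V) (he1 : ∀ v, e v ∈ W)
    (he2 : ∀ w ∈ W, e w = w) (he3 : ∀ σ v, v ∈ X.lat σ → e v ∈ X.lat σ)
    (hp : ∀ j, ∀ w ∈ W, X.pr j w ∈ W) (hd1 : ∀ w ∈ W, d' w ∈ W)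
    (hd2 : ∀ w ∈ W, d' (d' w) = 0) (hd3 : ∀ j, ∀ w ∈ W, d' (X.pr j w) = X.pr (j + 1) (d' w))
    (hd4 : ∀ σ, ∀ w ∈ W, w ∈ X.lat σ → d' w ∈ X.lat σ) : Cplx Z where
  V := W
  pr j := (X.pr j).restrict (hp j)
  bd := X.bd
  pr_pr i j := by
    ext w
    have h := LinearMap.congr_fun (X.pr_pr i j) (w : X.V)
    by_cases hij : i = j
    · subst hij
      simpa using h
    · simpa [hij] using h
  pr_bd i hi := by
    ext w
    simp [LinearMap.restrict_apply, X.pr_bd i hi]
  pr_sum := by
    ext w
    have h := LinearMap.congr_fun X.pr_sum (w : X.V)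
    simpa [LinearMap.sum_apply] using h
  d := d'.restrict hd1
  d_pr i := by
    ext w
    exact hd3 i w w.2
  d_d := by
    ext w
    exact hd2 w w.2
  lat σ := subLat (Z.A σ) (X.lat σ) W
  lat_fin σ hσ := by
    have := X.lat_fin σ hσ
    exact Module.Finite.of_surjective (toSub (Z.A σ) (X.lat σ) W e he1 (he3 σ))
      fun w => ⟨ofSub (Z.A σ) (X.lat σ) W w, toSub_ofSub (Z.A σ) (X.lat σ) W e he1 he2 (he3 σ) w⟩
  lat_proj σ hσ := by
    have := X.lat_proj σ hσ
    exact Module.Projective.of_split (ofSub (Z.A σ) (X.lat σ) W)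
      (toSub (Z.A σ) (X.lat σ) W e he1 (he3 σ))
      (LinearMap.ext fun w => toSub_ofSub (Z.A σ) (X.lat σ) W e he1 he2 (he3 σ) w)
  lat_gen σ hσ w := by
    obtain ⟨c, hc, h⟩ := X.lat_gen σ hσ (w : X.V)
    exact ⟨c, hc, h⟩
  lat_loc σ τ hσ hστ := by
    apply le_antisymm
    · intro w hw
      have h1 : ∀ v ∈ Submodule.span (Z.A τ) (X.lat σ : Set X.V),
          (⟨e v, he1 v⟩ : W) ∈ Submodule.span (Z.A τ) (subLat (Z.A σ) (X.lat σ) W : Set W) := by
        intro v hv
        refine Submodule.span_induction (p := fun v _ => (⟨e v, he1 v⟩ : W) ∈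
          Submodule.span (Z.A τ) (subLat (Z.A σ) (X.lat σ) W : Set W)) ?_ ?_ ?_ ?_ hv
        · intro x hx
          exact Submodule.subset_span (he3 σ x hx)
        · have : (⟨e 0, he1 0⟩ : W) = 0 := Subtype.ext (map_zero e)
          rw [this]
          exact Submodule.zero_mem _
        · intro x y _ _ hx hy
          have : (⟨e (x + y), he1 (x + y)⟩ : W) = ⟨e x, he1 x⟩ + ⟨e y, he1 y⟩ :=
            Subtype.ext (map_add e x y)
          rw [this]
          exact Submodule.add_mem _ hx hy
        · intro c x _ hx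
          have : (⟨e (c • x), he1 (c • x)⟩ : W) = c • ⟨e x, he1 x⟩ :=
            Subtype.ext (e.map_smul (c : K) x)
          rw [this]
          exact Submodule.smul_mem _ c hx
      have h2 : (w : X.V) ∈ Submodule.span (Z.A τ) (X.lat σ : Set X.V) := by
        rw [← X.lat_loc σ τ hσ hστ]
        exact hw
      have h3 := h1 _ h2
      have h4 : (⟨e w, he1 w⟩ : W) = w := Subtype.ext (he2 _ w.2)
      rwa [h4] at h3
    · rw [Submodule.span_le]
      intro w hw
      have h1 : (w : X.V) ∈ X.lat σ := hw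
      change (w : X.V) ∈ X.lat τ
      rw [X.lat_loc σ τ hσ hστ]
      exact Submodule.subset_span h1
  lat_pr σ i v hv := X.lat_pr σ i _ hv
  lat_d σ v hv := hd4 σ v v.2 hv

theorem pr_pr_apply (X : Cplx Z) (i j : ℤ) (v : X.V) :
    X.pr i (X.pr j v) = if i = j then X.pr i v else 0 := by
  have h := LinearMap.congr_fun (X.pr_pr i j) v
  rw [LinearMap.comp_apply] at h
  rw [h]
  split_ifs <;> rfl

theorem d_pr_apply (X : Cplx Z) (i : ℤ) (v : X.V) : X.d (X.pr i v) = X.pr (i + 1) (X.d v) :=
  LinearMap.congr_fun (X.d_pr i) v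

theorem d_d_apply (X : Cplx Z) (v : X.V) : X.d (X.d v) = 0 :=
  LinearMap.congr_fun X.d_d v

/-- C5 -/
theorem trunEx : TrunEx.{u} := by
  intro k _ K _ _ Z X i hX
  have hprd : ∀ v, X.pr i (X.d v) = 0 := by
    intro v
    have h := d_pr_apply X (i - 1) v
    rw [sub_add_cancel, hX (i - 1) (by omega)] at h
    rw [← h, LinearMap.zero_apply, map_zero]
  -- the part of degree > i
  let X' : Cplx Z := subC X (LinearMap.ker (X.pr i)) (LinearMap.id - X.pr i) X.d
    (fun v => by
      rw [LinearMap.mem_ker, LinearMap.sub_apply, LinearMap.id_apply, map_sub, pr_pr_apply,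
        if_pos rfl, sub_self])
    (fun w hw => by
      rw [LinearMap.mem_ker] at hw
      rw [LinearMap.sub_apply, LinearMap.id_apply, hw, sub_zero])
    (fun σ v hv => by
      rw [LinearMap.sub_apply, LinearMap.id_apply]
      exact (X.lat σ).sub_mem hv (X.lat_pr σ i v hv))
    (fun j w hw => by
      rw [LinearMap.mem_ker] at hw ⊢
      rw [pr_pr_apply]
      split_ifs
      · exact hw
      · rfl)
    (fun w _ => by
      rw [LinearMap.mem_ker]
      exact hprd w)
    (fun w _ => d_d_apply X w) (fun j w _ => d_pr_apply X j w) (fun σ w _ hw => X.lat_d σ w hw)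
  -- the part of degree i
  let X'' : Cplx Z := subC X (LinearMap.range (X.pr i)) (X.pr i) 0
    (fun v => ⟨v, rfl⟩)
    (fun w hw => by
      obtain ⟨v, rfl⟩ := hw
      rw [pr_pr_apply, if_pos rfl])
    (fun σ v hv => X.lat_pr σ i v hv)
    (fun j w hw => by
      obtain ⟨v, rfl⟩ := hw
      rw [pr_pr_apply]
      split_ifs with h
      · subst h
        exact ⟨v, rfl⟩
      · exact Submodule.zero_mem _)
    (fun w _ => Submodule.zero_mem _) (fun w _ => rfl)
    (fun j w _ => by rw [LinearMap.zero_apply, LinearMap.zero_apply, map_zero])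
    (fun σ w _ _ => (X.lat σ).zero_mem)
  refine ⟨X', X'', ?_, ?_, ?_, ?_⟩
  · refine ⟨(LinearMap.ker (X.pr i)).subtype, (X.pr i).rangeRestrict, ?_, ?_, ?_, ?_, ?_, ?_, ?_, ?_⟩
    · intro j
      rw [add_zero]
      rfl
    · intro j
      rw [add_zero]
      apply LinearMap.ext
      intro v
      apply Subtype.ext
      change X.pr i (X.pr j v) = X.pr j (X.pr i v)
      rw [pr_pr_apply, pr_pr_apply]
      by_cases h : i = j
      · subst h
        rfl
      · rw [if_neg h, if_neg (Ne.symm h)]
    · rfl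
    · apply LinearMap.ext
      intro v
      apply Subtype.ext
      exact hprd v
    · exact Submodule.subtype_injective _
    · exact LinearMap.surjective_rangeRestrict _
    · intro y
      constructor
      · intro h
        exact ⟨⟨y, congrArg Subtype.val h⟩, rfl⟩
      · rintro ⟨x, rfl⟩
        apply Subtype.ext
        exact x.2
    · intro σ hσ
      refine ⟨fun x => Iff.rfl, fun w => ⟨fun hw => ?_, ?_⟩⟩
      · refine ⟨w.1, hw, ?_⟩
        apply Subtype.ext
        obtain ⟨v, hv⟩ := w.2
        change X.pr i w.1 = w.1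
        rw [← hv, pr_pr_apply, if_pos rfl]
      · rintro ⟨y, hy, rfl⟩
        exact X.lat_pr σ i y hy
  · intro j hj
    apply LinearMap.ext
    intro w
    apply Subtype.ext
    change X.pr j w.1 = 0
    rcases lt_or_eq_of_le hj with h | h
    · rw [hX j h]
      rfl
    · subst h
      exact w.2
  · intro j hj
    apply LinearMap.ext
    intro w
    apply Subtype.ext
    change X.pr j w.1 = 0
    rw [hj]
    rfl
  · change (X''.shift i).pr 0 = LinearMap.id
    apply LinearMap.ext
    intro w
    apply Subtype.ext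
    obtain ⟨v, hv⟩ := (w : LinearMap.range (X.pr i)).2
    change X.pr (0 + i) (w : LinearMap.range (X.pr i)).1 = (w : LinearMap.range (X.pr i)).1
    rw [zero_add, ← hv, pr_pr_apply, if_pos rfl]

end

end Pool.Agent.Helper94.RZ
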